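import Mathlib

open Finset Filter Topology

namespace Pool.Agent.Results.MP_b26fee_pr.Pad

section defs
variable {V : Type} [Fintype V] [DecidableEq V]

/-- law of a bit that is `true` with probability `p` -/
def bern (p : ℝ) (b : Bool) : ℝ := if b then p else 1 - p

/-- expectation under iid bits, each `true` with probability `p` -/
def E (p : ℝ) (g : (V → Bool) → ℝ) : ℝ := ∑ ω : V → Bool, (∏ v, bern p (ω v)) * g ω

def var (p : ℝ) (g : (V → Bool) → ℝ) : ℝ := E p (fun ω => g ω ^ 2) - E p g ^ 2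

/-- conditional expectation given the coordinates in `U` -/
def cond (p : ℝ) (U : Finset V) (g : (V → Bool) → ℝ) (ω : V → Bool) : ℝ :=
  E p fun ω' => g fun v => if v ∈ U then ω v else ω' v

noncomputable def clue (p : ℝ) (g : (V → Bool) → ℝ) (U : Finset V) : ℝ :=
  var p (cond p U g) / var p g

/-- clue profile -/
noncomputable def cp (p : ℝ) (g : (V → Bool) → ℝ) (s : ℝ) : ℝ :=
  sInf {u : ℝ | ∃ U : Finset V, (U.card : ℝ) / Fintype.card V ≤ u ∧ s ≤ clue p g U}

/-- expected clue of the Bernoulli random subset of density `δ` -/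
noncomputable def bclue (p : ℝ) (g : (V → Bool) → ℝ) (δ : ℝ) : ℝ :=
  E δ fun r : V → Bool => clue p g (univ.filter fun v => r v = true)

/-- covariance of `g` with its value after resampling each bit with probability `ε` -/
def ncov (p : ℝ) (g : (V → Bool) → ℝ) (ε : ℝ) : ℝ :=
  (E ε fun r : V → Bool => E p fun ω => E p fun ω' =>
    g ω * g fun v => if r v then ω' v else ω v) - E p g ^ 2

/-- a Boolean function read with values `-1`, `1` -/
def sg (f : (V → Bool) → Bool) (ω : V → Bool) : ℝ := if f ω then 1 else -1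

variable (p : ℝ)

theorem E_prod (F : V → Bool → ℝ) :
    E p (fun ω => ∏ v, F v (ω v)) = ∏ v, (p * F v true + (1 - p) * F v false) := by
  simp only [E, ← prod_mul_distrib]
  rw [← Fintype.piFinset_univ, ← prod_univ_sum (fun _ => univ) fun v b => bern p b * F v b]
  simp [bern]

theorem E_const (c : ℝ) : E p (fun _ : V → Bool => c) = c := by
  have := E_prod (V := V) p fun _ _ => 1
  simp only [E, prod_const_one, mul_one, add_sub_cancel] at this
  rw [E, ← sum_mul, this, one_mul]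

theorem E_add (g h : (V → Bool) → ℝ) : E p (fun ω => g ω + h ω) = E p g + E p h := by
  simp only [E, mul_add, sum_add_distrib]

theorem E_sub (g h : (V → Bool) → ℝ) : E p (fun ω => g ω - h ω) = E p g - E p h := by
  simp only [E, mul_sub, sum_sub_distrib]

theorem E_mul (c : ℝ) (g : (V → Bool) → ℝ) : E p (fun ω => c * g ω) = c * E p g := by
  simp only [E, mul_sum, mul_left_comm]

theorem E_mono (h0 : 0 ≤ p) (h1 : p ≤ 1) {g h : (V → Bool) → ℝ} (a : ∀ ω, g ω ≤ h ω) :
    E p g ≤ E p h :=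
  sum_le_sum fun ω _ => mul_le_mul_of_nonneg_left (a ω) (prod_nonneg fun v _ => by
    unfold bern; split_ifs <;> linarith)

theorem var_nonneg (h0 : 0 ≤ p) (h1 : p ≤ 1) (g : (V → Bool) → ℝ) : 0 ≤ var p g := by
  have := E_mono p h0 h1 (g := fun ω => (2 * E p g) * g ω - E p g ^ 2) (h := fun ω => g ω ^ 2)
    fun ω => by nlinarith [sq_nonneg (g ω - E p g)]
  rw [E_sub, E_mul, E_const] at this
  unfold var; nlinarith

theorem E_cur {I : Type} [Fintype I] [DecidableEq I] (G : I → (V → Bool) → ℝ) :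
    E p (fun ω : I × V → Bool => ∏ i, G i fun v => ω (i, v)) = ∏ i, E p (G i) := by
  simp only [E]
  rw [prod_univ_sum, Fintype.piFinset_univ]
  refine Fintype.sum_equiv (Equiv.curry I V Bool) _ _ fun ω => ?_
  rw [Fintype.prod_prod_type, ← prod_mul_distrib]; rfl
end defs

abbrev W (k N : ℕ) := Fin (2 ^ k) × (Fin k ⊕ Fin N)

def tribes (k N : ℕ) (ω : W k N → Bool) : Bool := decide (∃ i, ∀ j, ω (i, .inl j) = true)

def h {k N : ℕ} : Fin k ⊕ Fin N → Bool → ℝ
  | .inl _, b => if b then 1 else 0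
  | .inr _, _ => 1

def t {k N : ℕ} (y : Fin k ⊕ Fin N → Bool) : ℝ := ∏ v, h v (y v)

theorem t_eq {k N : ℕ} (y : Fin k ⊕ Fin N → Bool) :
    t y = if ∀ j, y (.inl j) = true then 1 else 0 := by
  simp [t, h, Fintype.prod_sum_type, prod_boole]

def g {k N : ℕ} (ω : W k N → Bool) : ℝ := ∏ i, (1 - t fun v => ω (i, v))

theorem sg_eq (k N : ℕ) : sg (tribes k N) = fun ω => 1 - 2 * g ω := by
  funext ω
  by_cases e : ∃ i, ∀ j, ω (i, .inl j) = true
  · obtain ⟨i, hi⟩ := id e
    rw [g, prod_eq_zero (mem_univ i) (by simp [t_eq, hi])]; simp [sg, tribes, e]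
  · rw [g, prod_eq_one fun i _ => by rw [t_eq, if_neg fun z => e ⟨i, z⟩, sub_zero]]
    simp only [sg, tribes, e]; norm_num

theorem E_t (k N : ℕ) (p : ℝ) : E p (t (k := k) (N := N)) = p ^ k := by
  unfold t; rw [E_prod]; simp [Fintype.prod_sum_type, h]

theorem E_g (k N : ℕ) : E (1 / 2) (g (k := k) (N := N)) = (1 - (1 / 2) ^ k) ^ 2 ^ k := by
  unfold g
  rw [E_cur _ fun _ y => 1 - t y]; simp [E_sub, E_const, E_t]

theorem E3 {k N : ℕ} (ε : ℝ) (F : Fin k ⊕ Fin N → Bool → Bool → Bool → ℝ) :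
    (E ε fun r => E (1 / 2) fun y => E (1 / 2) fun y' => ∏ v, F v (r v) (y v) (y' v)) =
      ∏ v, (ε * ((F v true true true + F v true true false + F v true false true +
        F v true false false) / 4) + (1 - ε) * ((F v false true true + F v false true false +
        F v false false true + F v false false false) / 4)) := by
  have a : ∀ r y : Fin k ⊕ Fin N → Bool, _ := fun r y => E_prod (1 / 2) fun v => F v (r v) (y v)
  simp only [a]
  have b : ∀ r : Fin k ⊕ Fin N → Bool, _ := fun r => E_prod (1 / 2) fun v c =>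
    1 / 2 * F v (r v) c true + (1 - 1 / 2) * F v (r v) c false
  simp only [b]
  rw [E_prod ε fun v d => 1 / 2 * (1 / 2 * F v d true true + (1 - 1 / 2) * F v d true false) +
    (1 - 1 / 2) * (1 / 2 * F v d false true + (1 - 1 / 2) * F v d false false)]
  exact prod_congr rfl fun v _ => by ring

theorem C3 {k N : ℕ} (ε : ℝ) (F : (Fin k ⊕ Fin N → Bool) → (Fin k ⊕ Fin N → Bool) →
    (Fin k ⊕ Fin N → Bool) → ℝ) :
    (E ε fun r : W k N → Bool => E (1 / 2) fun y : W k N → Bool => E (1 / 2)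
      fun y' : W k N → Bool => ∏ i, F (fun v => r (i, v)) (fun v => y (i, v)) fun v => y' (i, v)) =
      (E ε fun r => E (1 / 2) fun y => E (1 / 2) fun y' => F r y y') ^ 2 ^ k := by
  have a : ∀ r y : W k N → Bool, _ := fun r y => E_cur (1 / 2) fun i =>
    F (fun v => r (i, v)) fun v => y (i, v)
  simp only [a]
  have b : ∀ r : W k N → Bool, _ := fun r => E_cur (1 / 2) fun i y =>
    E (1 / 2) (F (fun v => r (i, v)) y)
  simp only [b]
  rw [E_cur ε fun _ r => E (1 / 2) fun y => E (1 / 2) (F r y)]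
  simp

theorem ncov_eq (k N : ℕ) (ε : ℝ) : ncov (1 / 2) (sg (tribes k N)) ε =
    4 * ((1 - 2 * (1 / 2) ^ k + ((2 - ε) / 4) ^ k) ^ 2 ^ k -
      ((1 - (1 / 2) ^ k) ^ 2) ^ 2 ^ k) := by
  have a1 : (E ε fun r : Fin k ⊕ Fin N → Bool => E (1 / 2) fun y => E (1 / 2) fun y' =>
      t fun v => if r v then y' v else y v) = (1 / 2) ^ k := by
    unfold t
    rw [E3 ε fun v r y y' => h v (if r then y' else y)]
    simp only [Fintype.prod_sum_type, h]; norm_num; congr 1; ring
  have a2 : (E ε fun r : Fin k ⊕ Fin N → Bool => E (1 / 2) fun y => E (1 / 2) fun y' =>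
      t y * t fun v => if r v then y' v else y v) = ((2 - ε) / 4) ^ k := by
    simp only [t, ← prod_mul_distrib]
    rw [E3 ε fun v r y y' => h v y * h v (if r then y' else y)]
    simp only [Fintype.prod_sum_type, h]; norm_num; congr 1; ring
  have b1 := C3 (k := k) (N := N) ε fun r y y' => 1 - t fun v => if r v then y' v else y v
  have b2 := C3 (k := k) (N := N) ε fun r y y' =>
    (1 - t y) * (1 - t fun v => if r v then y' v else y v)
  have e : ∀ a b : ℝ, (1 - a) * (1 - b) = 1 - a - b + a * b := fun a b => by ring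
  have e' : ∀ a b : ℝ, (1 - 2 * a) * (1 - 2 * b) = 1 - 2 * a - 2 * b + 4 * (a * b) :=
    fun a b => by ring
  simp only [prod_mul_distrib] at b2
  simp only [E_mul] at b2 a2
  simp only [e, E_add, E_sub, E_const, a1, a2, E_t] at b1 b2
  simp only [ncov, sg_eq, e', E_add, E_sub, E_mul, E_const, E_g]
  simp only [g]
  rw [b1, b2, ← pow_mul, mul_comm 2 (2 ^ k), pow_mul]; ring_nf

theorem var_ge (k N : ℕ) : 1 / 2 ≤ var (1 / 2) (sg (tribes (k + 1) N)) := by
  have a : (fun ω => sg (tribes (k + 1) N) ω ^ 2) = fun _ => 1 := by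
    funext ω; unfold sg; split_ifs <;> norm_num
  rw [var, a, E_const, sg_eq, E_sub, E_const, E_mul, E_g]
  set x : ℝ := (1 / 2) ^ (k + 1) with hx
  have x1 : x ≤ 1 := pow_le_one₀ (by norm_num) (by norm_num)
  have x2 : ((2 ^ k : ℕ) : ℝ) * x = 1 / 2 := by rw [hx, pow_succ]; simp
  have x0 : 0 < x := by positivity
  have l : 1 / 2 ≤ (1 - x) ^ 2 ^ k := by
    have := one_add_mul_le_pow (a := -x) (by linarith) (2 ^ k)
    rw [← sub_eq_add_neg] at this; linarith
  have u : (1 - x) ^ 2 ^ k ≤ 2 / 3 := by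
    have := one_add_mul_le_pow (a := x) (by linarith) (2 ^ k)
    have b : (1 - x) ^ 2 ^ k * (1 + x) ^ 2 ^ k ≤ 1 := by
      rw [← mul_pow]; exact pow_le_one₀ (by nlinarith) (by nlinarith)
    nlinarith
  rw [pow_succ 2 k, pow_mul]
  nlinarith [mul_le_mul l l (by norm_num) (by linarith), mul_le_mul u u (by linarith) (by norm_num)]

theorem clue_one {k N : ℕ} {U : Finset (W (k + 1) N)} (hU : ∀ i j, (i, .inl j) ∈ U) :
    clue (1 / 2) (sg (tribes (k + 1) N)) U = 1 := by
  have : cond (1 / 2) U (sg (tribes (k + 1) N)) = sg (tribes (k + 1) N) := by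
    funext ω; simp [cond, sg, tribes, hU, E_const]
  rw [clue, this, div_self (by linarith [var_ge k N])]

theorem result : ∃ (V : ℕ → Type) (_ : ∀ n, Fintype (V n)) (_ : ∀ n, DecidableEq (V n))
    (f : ∀ n, (V n → Bool) → Bool),
    Tendsto (fun n => Fintype.card (V n)) atTop atTop ∧ (∀ n, Monotone (f n)) ∧
    (∀ n, 1 / 2 ≤ var (1 / 2) (sg (f n))) ∧
    (∀ ε, 0 < ε → ε < 1 → Tendsto (fun n => ncov (1 / 2) (sg (f n)) ε) atTop (𝓝 0)) ∧
    ∀ δ, 0 < δ → δ < 1 → (∀ n, 0 < cp (1 / 2) (sg (f n)) δ) ∧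
      Tendsto (fun n => bclue (1 / 2) (sg (f n)) δ / cp (1 / 2) (sg (f n)) δ) atTop atTop := by
  let c : ℕ → ℕ := fun n => (n + 1) * 2 ^ (n + 1)
  let N : ℕ → ℕ := fun n => (n + 1) * n ^ c n
  refine ⟨fun n => W (n + 1) (N n), inferInstance, inferInstance, fun n => tribes _ _,
    tendsto_atTop_mono (fun n => ?_) tendsto_id, fun n ω ω' a => ?_, fun n => var_ge _ _,
    fun ε e0 e1 => ?_, fun δ d0 d1 => ?_⟩
  · have : 0 < 2 ^ (n + 1) := by positivity
    simp only [id, Fintype.card_prod, Fintype.card_fin, Fintype.card_sum]; nlinarith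
  · simp only [tribes, Bool.le_iff_imp, decide_eq_true_eq]
    exact fun ⟨i, b⟩ => ⟨i, fun j => Bool.le_iff_imp.1 (a _) (b j)⟩
  · have := ((tendsto_pow_atTop_nhds_zero_of_lt_one (r := (2 - ε) / 2) (by linarith)
      (by linarith)).comp (tendsto_add_atTop_nat 1)).const_mul 4
    refine squeeze_zero (fun n => ?_) (fun n => ?_) (by simpa using this)
    all_goals
      rw [ncov_eq]
      have a : ((1 / 2 : ℝ) ^ (n + 1)) ^ 2 ≤ ((2 - ε) / 4) ^ (n + 1) := by
        rw [← pow_mul, mul_comm, pow_mul]; gcongr; linarith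
      have b : ((2 - ε) / 4) ^ (n + 1) ≤ (1 / 2 : ℝ) ^ (n + 1) :=
        pow_le_pow_left₀ (by linarith) (by linarith) _
      have x0 : (0 : ℝ) < (1 / 2) ^ (n + 1) := by positivity
      have x1 : (1 / 2 : ℝ) ^ (n + 1) ≤ 1 := pow_le_one₀ (by norm_num) (by norm_num)
      set x : ℝ := (1 / 2) ^ (n + 1)
      set y : ℝ := ((2 - ε) / 4) ^ (n + 1) with hy
      have z : (1 - x) ^ 2 ≤ 1 - 2 * x + y := by nlinarith
    · have := pow_le_pow_left₀ (by positivity) z (2 ^ (n + 1)); linarith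
    · have := abs_pow_sub_pow_le (1 - 2 * x + y) ((1 - x) ^ 2) (2 ^ (n + 1))
      have m : max |1 - 2 * x + y| |(1 - x) ^ 2| ^ (2 ^ (n + 1) - 1) ≤ 1 :=
        pow_le_one₀ (by positivity) (max_le (abs_le.2 ⟨by nlinarith, by nlinarith⟩)
          (abs_le.2 ⟨by nlinarith, by nlinarith⟩))
      have q : ((2 - ε) / 2) ^ (n + 1) = y * (2 ^ (n + 1) : ℕ) := by
        rw [hy]; push_cast; rw [← mul_pow]; congr 1; ring
      rw [abs_of_nonneg (sub_nonneg.2 z)] at this
      have w : (1 - 2 * x + y - (1 - x) ^ 2) * (2 ^ (n + 1) : ℕ) ≤ y * (2 ^ (n + 1) : ℕ) := by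
        gcongr; nlinarith
      have := this.trans (mul_le_of_le_one_right (by have := sub_nonneg.2 z; positivity) m)
      linarith [le_abs_self ((1 - 2 * x + y) ^ 2 ^ (n + 1) - ((1 - x) ^ 2) ^ 2 ^ (n + 1))]
  · have lb : ∀ n, ∀ u ∈ {u : ℝ | ∃ U : Finset (W (n + 1) (N n)), (U.card : ℝ) /
        Fintype.card (W (n + 1) (N n)) ≤ u ∧ δ ≤ clue (1 / 2) (sg (tribes (n + 1) (N n))) U},
        1 / (Fintype.card (W (n + 1) (N n)) : ℝ) ≤ u := fun n u ⟨U, a, b⟩ => by
      refine le_trans ?_ a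
      have : U ≠ ∅ := by
        rintro rfl
        have e : ∀ G : (W (n + 1) (N n) → Bool) → ℝ, cond (1 / 2) ∅ G = fun _ => E (1 / 2) G :=
          fun G => by funext ω; simp [cond]
        rw [clue, e, var, E_const, E_const, sub_self, zero_div] at b
        linarith
      gcongr
      exact_mod_cast card_pos.2 (nonempty_iff_ne_empty.2 this)
    have p0 : ∀ n, 0 < cp (1 / 2) (sg (tribes (n + 1) (N n))) δ := fun n =>
      lt_of_lt_of_le (by have := Fintype.card_pos (α := W (n + 1) (N n)); positivity)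
        (le_csInf ⟨_, univ, le_rfl, by rw [clue_one fun _ _ => mem_univ _]; exact d1.le⟩ (lb n))
    refine ⟨p0, tendsto_atTop_mono' _ ?_ (tendsto_natCast_atTop_atTop.const_mul_atTop d0)⟩
    filter_upwards [(tendsto_natCast_atTop_atTop.const_mul_atTop d0).eventually_ge_atTop 1]
      with n hn
    have n0 : (0 : ℝ) < n := by by_contra! z; nlinarith
    have a : cp (1 / 2) (sg (tribes (n + 1) (N n))) δ ≤ 1 / (n : ℝ) ^ c n := by
      refine csInf_le ⟨_, lb n⟩ ⟨univ ×ˢ univ.map Function.Embedding.inl, ?_, ?_⟩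
      · simp only [card_product, card_map, card_univ, Fintype.card_prod, Fintype.card_fin,
          Fintype.card_sum, N]
        push_cast
        rw [div_le_div_iff₀ (by positivity) (by positivity)]
        have : (0 : ℝ) ≤ 2 ^ (n + 1) * (n + 1) := by positivity
        nlinarith
      · rw [clue_one fun _ _ => by simp]; exact d1.le
    have b : δ ^ c n ≤ bclue (1 / 2) (sg (tribes (n + 1) (N n))) δ := by
      have := E_cur δ fun _ : Fin (2 ^ (n + 1)) => t (k := n + 1) (N := N n)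
      simp only [E_t, prod_const, card_univ, Fintype.card_fin, ← pow_mul] at this
      refine this.ge.trans (E_mono δ d0.le d1.le fun r => ?_)
      by_cases z : ∀ i j, r (i, .inl j) = true
      · rw [clue_one fun i j => by simp [z]]; simp [t_eq, z]
      · push Not at z
        obtain ⟨i, j, z⟩ := z
        rw [prod_eq_zero (mem_univ i) (by rw [t_eq, if_neg fun y => z (y j)])]
        exact div_nonneg (var_nonneg _ (by norm_num) (by norm_num) _)
          (var_nonneg _ (by norm_num) (by norm_num) _)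
    calc δ * n ≤ (δ * n) ^ c n := le_self_pow₀ hn (by positivity)
      _ = δ ^ c n / (1 / (n : ℝ) ^ c n) := by rw [mul_pow]; field_simp
      _ ≤ _ := div_le_div₀ ((pow_pos d0 _).le.trans b) b (p0 n) a

end Pool.Agent.Results.MP_b26fee_pr.Pad
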